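import Pool.Agent.Lib.H38R.Defs

/-! # H38R, the box (from H38Q M1, M2) -/

open H53P H38Q

namespace H38R

section

variable {V : Type*} {T : Table V} {u v : V} {ρ ρ' : V → ℝ} {X A : Finset V}

theorem frame_box [DecidableEq V] (h : Fr T u v ρ X A) (h' : Fr T v u ρ' A X) (X0 : Finset V)
    (hX0 : X0 ⊆ X) (D d k : ℕ) (hD : 1 ≤ D) (hk : 1 ≤ k) (hd1 : 1 ≤ d) (hA : A.card ≤ D * d)
    (hd : ∀ x ∈ X0, 5 * d ≤ (A.filter (fun a => T.X u v x a = true)).card)
    (hne : X0.Nonempty) (h1 : D ^ 2 * (20 * D * k) ^ 3 ≤ X0.card)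
    (h2 : 2 * ((10 * D) ^ 2 * (20 * D * k) ^ 3) ≤ d) :
    ∃ (f g : Fin (20 * D * k) → V) (H : Finset (Fin (20 * D * k) × Fin (20 * D * k))),
      Box T (20 * D * k) f g H ∧ 20 * D * k * (2 * k) ≤ H.card := by
  have hK1 : 1 ≤ 20 * D * k := Nat.mul_pos (Nat.mul_pos (by norm_num) hD) hk
  obtain ⟨f, Z, hf, hfX, hZG, hZd, hRL⟩ := xs_frame h X0 A hX0 (Finset.Subset.refl _)
    (fun x => A.filter (fun a => T.X u v x a = true)) (fun x _ => Finset.filter_subset _ _)
    (fun x _ a ha => (Finset.mem_filter.1 ha).2) D d (20 * D * k) hd hA hd1 hK1 h1 hne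
  have hdeg := deg_count A D d k hD hk Z (fun i => (hZG i).trans (Finset.filter_subset _ _)) hZd hA
  set A0 : Finset V := A.filter (fun a => 10 * k ≤ (Finset.univ.filter (fun i => a ∈ Z i)).card) with hA0
  have hA0c : (10 * D) ^ 2 * (20 * D * k) ^ 3 ≤ A0.card := by omega
  have hpos : 1 ≤ (10 * D) ^ 2 * (20 * D * k) ^ 3 :=
    Nat.mul_pos (pow_pos (Nat.mul_pos (by norm_num) hD) 2) (pow_pos hK1 3)
  have hA0n : A0.Nonempty := Finset.card_pos.1 (by omega)
  have hcr : ∀ i, ∀ a ∈ Z i, T.X u v (f i) a = true := fun i a ha => (Finset.mem_filter.1 (hZG i ha)).2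
  have hZA : ∀ i, ∀ a ∈ Z i, a ∈ A := fun i a ha => (Finset.mem_filter.1 (hZG i ha)).1
  obtain ⟨g, Z', hg, hgA, hZG', hZd', hRL'⟩ := xs_frame h' A0 (Finset.univ.image f) (Finset.filter_subset _ _)
    (fun y hy => by
      obtain ⟨i, -, rfl⟩ := Finset.mem_image.1 hy
      exact hX0 (hfX i))
    (fun a => (Finset.univ.filter (fun i => a ∈ Z i)).image f)
    (fun a _ => Finset.image_subset_image (Finset.filter_subset _ _))
    (fun a _ y hy => by
      obtain ⟨i, hi, rfl⟩ := Finset.mem_image.1 hy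
      have h3 := hcr i a (Finset.mem_filter.1 hi).2
      rw [T.symm1, T.symm2, T.symm1, T.symm2]
      exact h3)
    (10 * D) (2 * k) (20 * D * k)
    (fun a ha => by
      rw [Finset.card_image_of_injective _ hf]
      have h3 := (Finset.mem_filter.1 ha).2
      omega)
    (by
      rw [Finset.card_image_of_injective _ hf, Finset.card_univ, Fintype.card_fin]
      exact le_of_eq (by ring))
    (by omega) hK1 hA0c hA0n
  have hback : ∀ i J, f i ∈ Z' J → g J ∈ Z i := by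
    intro i J hi
    obtain ⟨i', hi', he⟩ := Finset.mem_image.1 (hZG' J hi)
    rw [← hf he]
    exact (Finset.mem_filter.1 hi').2
  let H : Finset (Fin (20 * D * k) × Fin (20 * D * k)) := Finset.univ.filter fun e => f e.1 ∈ Z' (Fin.rev e.2)
  have hmem : ∀ e, e ∈ H ↔ f e.1 ∈ Z' (Fin.rev e.2) := fun e => by simp [H]
  have hHc : 20 * D * k * (2 * k) ≤ H.card := by
    rw [Finset.card_eq_sum_card_fiberwise (f := Prod.snd) (t := Finset.univ) (fun e _ => Finset.mem_univ _)]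
    calc 20 * D * k * (2 * k) = ∑ j : Fin (20 * D * k), 2 * k := by
          rw [Finset.sum_const, Finset.card_univ, Fintype.card_fin, smul_eq_mul]
      _ ≤ ∑ j : Fin (20 * D * k), (H.filter fun e => e.2 = j).card := by
          refine Finset.sum_le_sum fun j _ => (hZd' (Fin.rev j)).trans ?_
          have h3 : Z' (Fin.rev j) ⊆ (H.filter fun e => e.2 = j).image fun e => f e.1 := by
            intro y hy
            obtain ⟨i, hi, rfl⟩ := Finset.mem_image.1 (hZG' _ hy)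
            refine Finset.mem_image.2 ⟨(i, j), Finset.mem_filter.2 ⟨(hmem _).2 hy, rfl⟩, rfl⟩
          exact (Finset.card_le_card h3).trans Finset.card_image_le
  refine ⟨f, fun j => g (Fin.rev j), H, ⟨hf, hg.comp Fin.rev_injective, ?_, ?_⟩, hHc⟩
  · intro i j he
    have h3 := h.lt (f i) (hX0 (hfX i)) (g (Fin.rev j)) (Finset.mem_filter.1 (hgA _)).1
    rw [he] at h3
    exact lt_irrefl _ h3
  · rintro ⟨i, j⟩ he ⟨i', j'⟩ he' hi hj
    have e1 : f i ∈ Z' (Fin.rev j) := (hmem _).1 he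
    have e2 : f i' ∈ Z' (Fin.rev j') := (hmem _).1 he'
    have e3 := hback _ _ e1
    have e4 := hback _ _ e2
    have hJ : Fin.rev j' < Fin.rev j := Fin.rev_lt_rev.2 hj
    refine f_cross h h' (hX0 (hfX i)) (hX0 (hfX i')) (hZA _ _ e3) (hZA _ _ e4) ?_ ?_ (hcr _ _ e3) (hcr _ _ e4)
      (hRL i i' hi _ e3 _ e4) (hRL' _ _ hJ _ e2 _ e1)
    · exact fun h3 => hi.ne (hf h3)
    · exact fun h3 => hJ.ne (hg h3).symm

end

theorem box_of_dense {V : Type*} [Fintype V] [DecidableEq V] {T : Table V} {u v : V}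
    {ρ ρ' : V → ℝ} {X A : Finset V} (h : Fr T u v ρ X A) (h' : Fr T v u ρ' A X) (c k : ℕ)
    (hc : 1 ≤ c) (hk : 1 ≤ k)
    (hG : (Fintype.card V) ^ 2 ≤ c * ∑ x ∈ X, (A.filter (fun a => T.X u v x a = true)).card)
    (hn : 4000 * 121 * 220 ^ 3 * c ^ 6 * k ^ 3 ≤ Fintype.card V) :
    ∃ (f g : Fin (20 * (11 * c) * k) → V)
      (H : Finset (Fin (20 * (11 * c) * k) × Fin (20 * (11 * c) * k))),
      Box T (20 * (11 * c) * k) f g H ∧ 20 * (11 * c) * k * (2 * k) ≤ H.card := by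
  classical
  obtain ⟨n, hnn⟩ : ∃ n, n = Fintype.card V := ⟨_, rfl⟩
  rw [← hnn] at hG hn
  obtain ⟨Q, hQ⟩ : ∃ Q, Q = 121 * 220 ^ 3 * c ^ 5 * k ^ 3 := ⟨_, rfl⟩
  have hQ1 : 1 ≤ Q := by
    rw [hQ]
    exact Nat.mul_pos (Nat.mul_pos (by norm_num) (pow_pos hc 5)) (pow_pos hk 3)
  have hn2 : 4000 * (c * Q) ≤ n := by
    refine le_trans (le_of_eq ?_) hn
    rw [hQ]
    ring
  have hcQ : 1 ≤ c * Q := Nat.mul_pos hc hQ1
  have hn0 : 0 < n := by omega
  obtain ⟨d, hd⟩ : ∃ d, d = n / (10 * c) := ⟨_, rfl⟩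
  have hd1 : 10 * c * d ≤ n := by
    rw [hd]
    exact Nat.mul_div_le n (10 * c)
  have hd2 : 200 * Q ≤ d := by
    rw [hd, Nat.le_div_iff_mul_le (by omega)]
    calc 200 * Q * (10 * c) = 2000 * (c * Q) := by ring
      _ ≤ n := by omega
  have hd3 : n ≤ 11 * c * d := by
    have h1 : n < 10 * c * (d + 1) := by
      rw [hd]
      exact Nat.lt_mul_div_succ n (by omega)
    have h2 : c * 10 ≤ c * d := Nat.mul_le_mul_left _ (by omega)
    have h3 : 10 * c * (d + 1) = 10 * (c * d) + c * 10 := by ring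
    have h4 : 11 * c * d = 11 * (c * d) := by ring
    omega
  have hXn : X.card ≤ n := by rw [hnn]; exact Finset.card_le_univ X
  have hAn : A.card ≤ n := by rw [hnn]; exact Finset.card_le_univ A
  obtain ⟨X0, hX0⟩ : ∃ X0 : Finset V, X0 = X.filter
    (fun x => 5 * d ≤ (A.filter (fun a => T.X u v x a = true)).card) := ⟨_, rfl⟩
  have hsum : ∑ x ∈ X, (A.filter (fun a => T.X u v x a = true)).card ≤ X0.card * n + n * (5 * d) := by
    rw [← Finset.sum_filter_add_sum_filter_not X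
      (fun x => 5 * d ≤ (A.filter (fun a => T.X u v x a = true)).card), ← hX0]
    refine Nat.add_le_add ?_ ?_
    · rw [← smul_eq_mul]
      exact Finset.sum_le_card_nsmul _ _ _ fun x _ => (Finset.card_filter_le _ _).trans hAn
    · refine (Finset.sum_le_card_nsmul _ _ (5 * d) fun x hx => ?_).trans ?_
      · exact (not_le.1 (Finset.mem_filter.1 hx).2).le
      · rw [smul_eq_mul]
        exact Nat.mul_le_mul_right _ ((Finset.card_filter_le _ _).trans hXn)
  have hX0n : n ≤ 2 * c * X0.card := by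
    have h1 : 2 * n ^ 2 ≤ 2 * (c * (X0.card * n + n * (5 * d))) :=
      Nat.mul_le_mul_left _ (hG.trans (Nat.mul_le_mul_left _ hsum))
    have h2 : 2 * (c * (X0.card * n + n * (5 * d))) = n * (2 * c * X0.card) + n * (10 * c * d) := by ring
    have h3 : n * (10 * c * d) ≤ n * n := Nat.mul_le_mul_left _ hd1
    have h4 : 2 * n ^ 2 = n * n + n * n := by ring
    have h5 : n * n ≤ n * (2 * c * X0.card) := by omega
    exact Nat.le_of_mul_le_mul_left h5 hn0
  have hQX : Q ≤ X0.card := by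
    have h1 : c * Q ≤ c * X0.card := by
      have h2 : 2 * c * X0.card = 2 * (c * X0.card) := by ring
      omega
    exact Nat.le_of_mul_le_mul_left h1 hc
  refine frame_box h h' X0 ?_ (11 * c) d k (by omega) hk (by omega) (hAn.trans hd3) ?_ ?_ ?_ ?_
  · rw [hX0]
    exact Finset.filter_subset _ _
  · intro x hx
    rw [hX0] at hx
    exact (Finset.mem_filter.1 hx).2
  · exact Finset.card_pos.1 (by omega)
  · refine le_trans (le_of_eq ?_) hQX
    rw [hQ]
    ring
  · refine le_trans (le_of_eq ?_) hd2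
    rw [hQ]
    ring

/-- every table with `n ≥ C k^3` vertices contains a box with `K = 20 D k` rows and columns and `2 k K` ones -/
theorem box_table : ∃ C D : ℕ, 1 ≤ C ∧ 1 ≤ D ∧ ∀ (V : Type) [Fintype V] [DecidableEq V]
    (T : Table V) (k : ℕ), 1 ≤ k → C * k ^ 3 ≤ Fintype.card V →
      ∃ (f g : Fin (20 * D * k) → V) (H : Finset (Fin (20 * D * k) × Fin (20 * D * k))),
        Box T (20 * D * k) f g H ∧ 20 * D * k * (2 * k) ≤ H.card := by
  refine ⟨4000 * 121 * 220 ^ 3 * 8192000 ^ 6, 11 * 8192000, by norm_num, by norm_num, ?_⟩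
  intro V _ _ T k hk hC
  have h1 : 1 ≤ k ^ 3 := Nat.one_le_pow 3 k hk
  have h2 : 320 ≤ Fintype.card V := by
    refine le_trans ?_ hC
    calc 320 = 320 * 1 := rfl
      _ ≤ 4000 * 121 * 220 ^ 3 * 8192000 ^ 6 * k ^ 3 := Nat.mul_le_mul (by norm_num) h1
  obtain ⟨u, v, ρ, ρ', X, A, h, h', hG⟩ := dense_frame T h2
  exact box_of_dense h h' 8192000 k (by norm_num) hk hG hC

end H38R
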