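import Pool.Agent.Lib.H38Q.M2

/-!
# H38R: plane cycles with `c n^(1/9)` vertices, definitions

Overview: `PROOF.md`.
-/

open H53P

namespace H38R

/-- rows `f`, columns `g`, ones `H`: edges of `H` which increase in both coordinates do not cross -/
structure Box {V : Type*} (T : Table V) (K : ℕ) (f g : Fin K → V) (H : Finset (Fin K × Fin K)) :
    Prop where
  injf : Function.Injective f
  injg : Function.Injective g
  ne : ∀ i j, f i ≠ g j
  X : ∀ e ∈ H, ∀ e' ∈ H, e.1 < e'.1 → e.2 < e'.2 →
    T.X (f e.1) (g e.2) (f e'.1) (g e'.2) = false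

end H38R
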