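import Pool.Agent.Lib.H38R.Defs
import Pool.Agent.Lib.H98S.K5

/-! # H38R, chunk E1: a five-point fact -/

open H53P

namespace H38R

theorem e1_bits : ∀ b3 b4 b5 b6 b7 b8 : Bool,
    ok5 false true false b3 b4 b5 b6 b7 b8 false true false true false false = false := by
  decide

/-- (E1, 5 points b p q r s) -/
theorem fan_five {V : Type*} (T : Table V) {b p q r s : V} (hn : [b, p, q, r, s].Nodup)
    (h1 : T.X p r b q = true) (h2 : T.X q s b r = true) : T.X p q r s = false := by
  by_contra hc
  rw [Bool.not_eq_false] at hc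
  simp only [List.nodup_cons, List.mem_cons, List.not_mem_nil, not_or, or_false, not_false_iff,
    List.nodup_nil, and_true] at hn
  obtain ⟨⟨n01, n02, n03, n04⟩, ⟨n12, n13, n14⟩, ⟨n23, n24⟩, n34⟩ := hn
  have h := T.ok5 n01 n02 n03 n04 n12 n13 n14 n23 n24 n34
  have c1 : T.X b q p r = true := by rw [T.xs4]; exact h1
  have c2 : T.X b r q s = true := by rw [T.xs4]; exact h2
  have f : ∀ x y : Bool, (!(x && y)) = true → y = true → x = false := by decide
  have g : ∀ x y : Bool, (!(x && y)) = true → x = true → y = false := by decide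
  have k0 := f _ _ (T.k4a b p q r) c1
  have k2 := g _ _ (T.k4c b p q r) c1
  have k9 := f _ _ (T.k4a b q r s) c2
  have k11 := g _ _ (T.k4c b q r s) c2
  have k13 := g _ _ (T.k4a p q r s) hc
  have k14 := g _ _ (T.k4b p q r s) hc
  unfold Table.Ok5 at h
  rw [k0, c1, k2, k9, c2, k11, hc, k13, k14, e1_bits] at h
  exact Bool.false_ne_true h

end H38R
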