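import Pool.Agent.Lib.H38R.E1
import Pool.Agent.Lib.H53P.CE7

/-! # H38R, chunk E2 (M): the plane fan -/

open H53P

namespace H38R

/-- the edges of the list `List.ofFn p` -/
theorem e2_mem {V : Type*} {s : ℕ} (p : Fin s → V) {e : V × V} (he : e ∈ edges (List.ofFn p)) :
    ∃ i j : Fin s, (j : ℕ) = i + 1 ∧ e = (p i, p j) := by
  unfold edges at he
  obtain ⟨i, hi, h⟩ := List.mem_iff_getElem.1 he
  have hi' : i + 1 < s := by
    rw [List.length_zip, List.length_tail, List.length_ofFn] at hi
    omega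
  refine ⟨⟨i, by omega⟩, ⟨i + 1, hi'⟩, rfl, ?_⟩
  rw [← h, List.getElem_zip, List.getElem_tail, List.getElem_ofFn, List.getElem_ofFn]

/-- (E2, M) PROOF. `v = b`, `t` = the list of the `p i` (`List.ofFn p`), length `s`. `(b :: t).Nodup` by `hp, hb`. The closed list has the edges `(b, p 0)`, `(p i, p (i + 1))`, `(p (s - 1), b)`. Two edges with a common vertex do not cross (`T.ne`).
`(b, p 0)` against `(p i, p (i + 1))`, `1 ≤ i`: by `hM 0 i (i+1)` `T.X (p 0) (p (i+1)) b (p i) = true`, so by `T.one` (with the symmetries) `T.X b (p 0) (p i) (p (i+1)) = false`. `(p (s - 1), b)` against `(p i, p (i + 1))`, `i + 1 < s - 1`: `hM i (i+1) (s-1)` and `T.one`.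
`(p i, p (i+1))` against `(p j, p (j+1))`, `i + 1 < j`: `fan_five` with `p i, p (i+1), p j, p (j+1)`: `h1` = `hM i (i+1) j`, `h2` = `hM (i+1) j (j+1)`. It is convenient to prove the path part by induction on lists: for a list `l` with
`l.Pairwise`/`Sublist` form of `hM` (`∀ x y z, [x, y, z].Sublist l → T.X x z b y = true`), the edges of `l` are plane and do not cross `b x`, `x` the first or the last element. -/
theorem fan_cycle {V : Type*} (T : Table V) {s : ℕ} (hs : 2 ≤ s) (b : V) (p : Fin s → V)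
    (hp : Function.Injective p) (hb : ∀ i, p i ≠ b)
    (hM : ∀ i j l : Fin s, i < j → j < l → T.X (p i) (p l) b (p j) = true) :
    T.HasCycle (s + 1) := by
  have hz : ∀ p q r s, (p = r ∨ p = s ∨ q = r ∨ q = s) → T.X p q r s = false := by
    intro p q r s h
    by_contra hc
    rw [Bool.not_eq_false] at hc
    obtain ⟨-, -, h3, h4, h5, h6⟩ := T.ne p q r s hc
    tauto
  have hpn : ∀ i j : Fin s, i < j → p i ≠ p j := fun i j h h' => h.ne (hp h')
  have hfar : ∀ i i' j j' : Fin s, i < i' → i' < j → j < j' →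
      T.X (p i) (p i') (p j) (p j') = false := by
    intro i i' j j' h1 h2 h3
    refine fan_five T (b := b) ?_ (hM i i' j h1 h2) (hM i' j j' h2 h3)
    simp only [List.nodup_cons, List.mem_cons, List.not_mem_nil, or_false, not_or,
      List.nodup_nil, not_false_eq_true, and_true]
    exact ⟨⟨(hb i).symm, (hb i').symm, (hb j).symm, (hb j').symm⟩,
      ⟨hpn i i' h1, hpn i j (h1.trans h2), hpn i j' ((h1.trans h2).trans h3)⟩,
      ⟨hpn i' j h2, hpn i' j' (h2.trans h3)⟩, hpn j j' h3⟩
  have hnd : (b :: List.ofFn p).Nodup := by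
    rw [List.nodup_cons]
    refine ⟨?_, List.nodup_ofFn.2 hp⟩
    rw [List.mem_ofFn]
    rintro ⟨i, hi⟩
    exact hb i hi
  have hlen : (List.ofFn p).length = s := List.length_ofFn
  have hne : List.ofFn p ≠ [] := by
    intro h
    rw [h] at hlen
    simp at hlen
    omega
  have hfirst : (List.ofFn p).head? = some (p ⟨0, by omega⟩) := by
    rw [List.head?_eq_some_head hne, List.head_eq_getElem, List.getElem_ofFn]
  have hlast : (List.ofFn p).getLast? = some (p ⟨s - 1, by omega⟩) := by
    rw [List.getLast?_eq_some_getLast hne, List.getLast_eq_getElem, List.getElem_ofFn]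
    simp
  have key := ce8_pole T (v := b) (l := List.ofFn p) hnd (by rw [hlen]; exact hs) ?_ hfirst hlast
    ?_ ?_
  · rwa [hlen] at key
  · intro e he f hf
    obtain ⟨i, i', hi, rfl⟩ := e2_mem p he
    obtain ⟨j, j', hj, rfl⟩ := e2_mem p hf
    rcases lt_trichotomy i j with h | h | h
    · rcases lt_or_eq_of_le (show i' ≤ j from Fin.le_def.2 (by have := Fin.lt_def.1 h; omega)) with
        h1 | h1
      · exact hfar i i' j j' (Fin.lt_def.2 (by omega)) h1 (Fin.lt_def.2 (by omega))
      · exact hz _ _ _ _ (Or.inr (Or.inr (Or.inl (by rw [h1]))))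
    · exact hz _ _ _ _ (Or.inl (by rw [h]))
    · rcases lt_or_eq_of_le (show j' ≤ i from Fin.le_def.2 (by have := Fin.lt_def.1 h; omega)) with
        h1 | h1
      · rw [T.symm2]
        exact hfar j j' i i' (Fin.lt_def.2 (by omega)) h1 (Fin.lt_def.2 (by omega))
      · exact hz _ _ _ _ (Or.inr (Or.inl (by rw [h1])))
  · intro e he
    obtain ⟨i, i', hi, rfl⟩ := e2_mem p he
    rcases Nat.eq_zero_or_pos (i : ℕ) with h | h
    · exact hz _ _ _ _ (Or.inr (Or.inr (Or.inl (congrArg p (Fin.ext h.symm)))))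
    · have h1 := hM ⟨0, by omega⟩ i i' (Fin.lt_def.2 h) (Fin.lt_def.2 (by omega))
      have h2 := T.one _ _ _ _ h1
      change T.X b (p ⟨0, by omega⟩) (p i) (p i') = false
      rw [T.symm1, T.symm2, T.symm1, T.symm2]
      exact h2
  · intro e he
    obtain ⟨i, i', hi, rfl⟩ := e2_mem p he
    rcases lt_or_eq_of_le (show (i' : ℕ) ≤ s - 1 by omega) with h | h
    · have h1 := hM i i' ⟨s - 1, by omega⟩ (Fin.lt_def.2 (by omega)) (Fin.lt_def.2 h)
      change T.X b (p ⟨s - 1, by omega⟩) (p i) (p i') = false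
      have h3 : T.X (p i) (p ⟨s - 1, by omega⟩) (p i') b = true := by
        rw [T.symm2, T.symm1, T.symm2]
        exact h1
      have h4 := T.one _ _ _ _ h3
      rw [T.symm1, T.symm2]
      exact h4
    · exact hz _ _ _ _ (Or.inr (Or.inr (Or.inr (congrArg p (Fin.ext h.symm)))))

end H38R
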