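import Pool.Agent.Lib.H38R.Defs
import Pool.Agent.Lib.H53P.CE7

/-! # H38R, chunk E3 (M/L): a staircase closed by a chord -/

open H53P

namespace H38R

theorem e3_nb {α : Type*} {R : α → α → Prop} : ∀ {l : List α}, l.IsChain R → 2 ≤ l.length →
    ∀ x ∈ l, ∃ y ∈ l, R x y ∨ R y x
  | [], _, h, _, _ => by simp at h
  | [a], _, h, _, _ => by simp at h
  | a :: b :: t, hc, _, x, hx => by
    rw [List.isChain_cons_cons] at hc
    rcases List.mem_cons.1 hx with hx | hx
    · exact ⟨b, by simp, Or.inl (by rw [hx]; exact hc.1)⟩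
    · rcases t with _ | ⟨d, t⟩
      · rw [List.mem_singleton] at hx
        exact ⟨a, by simp, Or.inr (by rw [hx]; exact hc.1)⟩
      · obtain ⟨y, hy, h3⟩ := e3_nb hc.2 (by simp) x hx
        exact ⟨y, List.mem_cons_of_mem _ hy, h3⟩

theorem e3_adj {K : ℕ} {S : Finset (Fin K × Fin K)} {a b : Fin K ⊕ Fin K} (h : H38Q.S S a b) :
    ∃ r c, (r, c) ∈ S ∧ ((a = Sum.inl r ∧ b = Sum.inr c) ∨ (a = Sum.inr c ∧ b = Sum.inl r)) := by
  rcases a with r | c
  · rcases b with r2 | c
    · exact absurd h (by simp [H38Q.S])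
    · exact ⟨r, c, h, Or.inl ⟨rfl, rfl⟩⟩
  · rcases b with r | c2
    · exact ⟨r, c, h, Or.inr ⟨rfl, rfl⟩⟩
    · exact absurd h (by simp [H38Q.S])

theorem e3_edge {V : Type*} {T : Table V} {K : ℕ} {f g : Fin K → V}
    {S : Finset (Fin K × Fin K)} {l : List (Fin K ⊕ Fin K)} (hc : l.IsChain (H38Q.S S)) (u v : V)
    (h : ∀ r c, (r, c) ∈ S → Sum.inl r ∈ l → Sum.inr c ∈ l → T.X u v (f r) (g c) = false) :
    ∀ e ∈ edges (l.map (Sum.elim f g)), T.X u v e.1 e.2 = false := by
  intro e he
  have h1 : edges (l.map (Sum.elim f g)) =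
      (l.zip l.tail).map (Prod.map (Sum.elim f g) (Sum.elim f g)) := by
    unfold edges
    rw [← List.map_tail, List.zip_map]
  rw [h1, List.mem_map] at he
  obtain ⟨⟨a, b⟩, hw, rfl⟩ := he
  have ha : a ∈ l := (List.of_mem_zip hw).1
  have hb : b ∈ l := List.mem_of_mem_tail (List.of_mem_zip hw).2
  obtain ⟨r, c, hrc, h3 | h3⟩ := e3_adj (H38Q.s3_chain_edges hc _ hw)
  · obtain ⟨h4, h5⟩ := h3
    simp only at h4 h5
    subst h4 h5
    exact h r c hrc ha hb
  · obtain ⟨h4, h5⟩ := h3
    simp only at h4 h5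
    subst h4 h5
    rw [T.symm2, T.symm1, T.symm2]
    exact h r c hrc hb ha

/-- (E3a, S/M) A long staircase which begins and ends with a column. PROOF. `H38Q.stair S K .. k` (file H38Q/S1.lean): a list `l` with `k + 2` elements. If its first element is a row (`inl`) delete it (`List.tail`, the next one is a column by `IsChain`), if its last element is a row delete it (`List.dropLast`);
`Pairwise` and `IsChain` are kept. If `k = 0` the list has two elements, one of them a column: the list with this one element. -/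
theorem stair_cols {K : ℕ} (S : Finset (Fin K × Fin K)) (k : ℕ) (hk : 1 ≤ k)
    (hc : k * K < S.card) :
    ∃ (c c' : Fin K) (l : List (Fin K ⊕ Fin K)), k ≤ l.length ∧ l.Pairwise H38Q.Q ∧
      l.IsChain (H38Q.S S) ∧ l.head? = some (Sum.inr c) ∧ l.getLast? = some (Sum.inr c') := by
  obtain ⟨p, hp, hQ, hS⟩ := H38Q.stair S K (by simp) (by simp) k hc
  have step1 : ∃ (c : Fin K) (q : List (Fin K ⊕ Fin K)), k + 1 ≤ q.length ∧
      q.Pairwise H38Q.Q ∧ q.IsChain (H38Q.S S) ∧ q.head? = some (Sum.inr c) := by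
    rcases p with _ | ⟨a, p⟩
    · simp at hp
    · rcases p with _ | ⟨b, t⟩
      · simp at hp
      · rcases a with r | c
        · rcases b with r2 | c
          · exact absurd (List.isChain_cons_cons.1 hS).1 (by simp [H38Q.S])
          · refine ⟨c, Sum.inr c :: t, ?_, (List.pairwise_cons.1 hQ).2,
              (List.isChain_cons_cons.1 hS).2, rfl⟩
            simp only [List.length_cons] at hp ⊢
            omega
        · refine ⟨c, Sum.inr c :: b :: t, ?_, hQ, hS, rfl⟩
          omega
  obtain ⟨c, q, hq, hQ', hS', hh⟩ := step1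
  rcases List.eq_nil_or_concat' q with h | ⟨L, b, rfl⟩
  · rw [h] at hh
    simp at hh
  · rcases b with r | c'
    · rcases List.eq_nil_or_concat' L with h | ⟨L', y, rfl⟩
      · rw [h] at hq
        simp only [List.nil_append, List.length_cons, List.length_nil] at hq
        omega
      · have h1 : (L' ++ [y] ++ [Sum.inl r]).IsChain (H38Q.S S) := hS'
        have h2 : H38Q.S S y (Sum.inl r) := by
          rw [List.isChain_append] at h1
          exact h1.2.2 y (by simp) _ (by simp)
        rcases y with r2 | c'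
        · exact absurd h2 (by simp [H38Q.S])
        · refine ⟨c, c', L' ++ [Sum.inr c'], ?_, (List.pairwise_append.1 hQ').1,
            (List.isChain_append.1 hS').1, ?_, by simp⟩
          · simp only [List.length_append, List.length_cons, List.length_nil] at hq ⊢
            omega
          · rw [List.head?_append_of_ne_nil _ (by simp)] at hh
            exact hh
    · exact ⟨c, c', L ++ [Sum.inr c'], by omega, hQ', hS', hh, by simp⟩

/-- (E3b, M/L) PROOF. `stair_cols` for `S` (`k ≥ 1`): `l = inr c :: .. inr c'`, `m ≥ k ≥ 3` elements; every element of `l` is in an adjacent pair, so rows `r` in `l` satisfy `i < r < j` (`(r, _) ∈ S`), and every column `c''` in `l` occurs in an `e ∈ S`, so `(i, c'') ∈ H`, `(j, c'') ∈ H`.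
CYCLE: `v = f i`, `t = (l.map (Sum.elim f g)) ++ [f j]`. Nodup: `H38Q.s3_nodup` for `l`; `f i, f j` are no columns (`Box.ne`) and `i < r < j` (`injf`). The edges are `(f i, g c)`, the edges of the staircase, `(g c', f j)`, `(f j, f i)`. Staircase: `H38Q.s3_plane` (with `Box.X`).
`(f i, g c)` against a staircase edge with row `r` and column `c''` (in one of the two orders): `c ≤ c''` (`Pairwise`, `c` is the first element), if `c = c''` common vertex, otherwise `Box.X (i, c) (r, c'')`. `(f j, g c')` in the same way (`c'' ≤ c'`, `r < j`).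
`(f i, g c)` against `(g c', f j)`: `c ≤ c'`, common vertex or `Box.X (i, c) (j, c')`. `(f j, f i)` against a staircase edge: `hS` (the pair `(r, c'') ∈ S` by `IsChain`); against the two others: common vertex. Edges are unordered: `T.symm1, T.symm2`. -/
theorem stair_cycle {V : Type*} {T : Table V} {K : ℕ} {f g : Fin K → V}
    {H : Finset (Fin K × Fin K)} (hB : Box T K f g H) {i j : Fin K} (hij : i < j)
    (S : Finset (Fin K × Fin K))
    (hS : ∀ e ∈ S, e ∈ H ∧ i < e.1 ∧ e.1 < j ∧ (i, e.2) ∈ H ∧ (j, e.2) ∈ H ∧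
      T.X (f i) (f j) (f e.1) (g e.2) = false)
    (k : ℕ) (hk : 3 ≤ k) (hc : k * K < S.card) : T.HasCycle k := by
  obtain ⟨c, c', l, hl, hQ, hC, hh, hlast⟩ := stair_cols S k (by omega) hc
  have hz : ∀ p q r s, (p = r ∨ p = s ∨ q = r ∨ q = s) → T.X p q r s = false :=
    fun p q r s h => H38Q.s3_share T h
  have hrow : ∀ r, Sum.inl r ∈ l → i < r ∧ r < j := by
    intro r hr
    obtain ⟨y, -, h3⟩ := e3_nb hC (by omega) _ hr
    rcases h3 with h3 | h3
    · obtain ⟨r', c'', hrc, h4 | h4⟩ := e3_adj h3
      · have h5 : r = r' := Sum.inl.inj h4.1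
        rw [h5]
        exact ⟨(hS _ hrc).2.1, (hS _ hrc).2.2.1⟩
      · exact absurd h4.1 (by simp)
    · obtain ⟨r', c'', hrc, h4 | h4⟩ := e3_adj h3
      · exact absurd h4.2 (by simp)
      · have h5 : r = r' := Sum.inl.inj h4.2
        rw [h5]
        exact ⟨(hS _ hrc).2.1, (hS _ hrc).2.2.1⟩
  have hcol : ∀ d, Sum.inr d ∈ l → (i, d) ∈ H ∧ (j, d) ∈ H := by
    intro d hd
    obtain ⟨y, -, h3⟩ := e3_nb hC (by omega) _ hd
    rcases h3 with h3 | h3
    · obtain ⟨r', c'', hrc, h4 | h4⟩ := e3_adj h3
      · exact absurd h4.1 (by simp)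
      · have h5 : d = c'' := Sum.inr.inj h4.1
        rw [h5]
        exact ⟨(hS _ hrc).2.2.2.1, (hS _ hrc).2.2.2.2.1⟩
    · obtain ⟨r', c'', hrc, h4 | h4⟩ := e3_adj h3
      · have h5 : d = c'' := Sum.inr.inj h4.2
        rw [h5]
        exact ⟨(hS _ hrc).2.2.2.1, (hS _ hrc).2.2.2.2.1⟩
      · exact absurd h4.2 (by simp)
  have hfirst : ∀ d, Sum.inr d ∈ l → c = d ∨ c < d := by
    intro d hd
    rcases l with _ | ⟨a, t⟩
    · simp at hh
    · have ha : a = Sum.inr c := by simpa using hh
      rw [ha] at hd hQ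
      rcases List.mem_cons.1 hd with h3 | h3
      · exact Or.inl (Sum.inr.inj h3).symm
      · exact Or.inr ((List.pairwise_cons.1 hQ).1 _ h3)
  have hcl : Sum.inr c ∈ l := List.mem_of_mem_head? hh
  have hcl' : Sum.inr c' ∈ l := List.mem_of_mem_getLast? hlast
  have hlst : ∀ d, Sum.inr d ∈ l → d = c' ∨ d < c' := by
    intro d hd
    rcases List.eq_nil_or_concat' l with h | ⟨L, b, rfl⟩
    · rw [h] at hl
      simp only [List.length_nil] at hl
      omega
    · have hb : b = Sum.inr c' := by simpa using hlast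
      rw [hb] at hd hQ
      rcases List.mem_append.1 hd with h3 | h3
      · have h4 : H38Q.Q (Sum.inr d : Fin K ⊕ Fin K) (Sum.inr c') :=
          (List.pairwise_append.1 hQ).2.2 _ h3 _ (by simp)
        exact Or.inr h4
      · rw [List.mem_singleton] at h3
        exact Or.inl (Sum.inr.inj h3)
  have hX : ∀ r c r' c', (r, c) ∈ S → (r', c') ∈ S → r < r' → c < c' →
      T.X (f r) (g c) (f r') (g c') = false :=
    fun r c r' c' h1 h2 h3 h4 => hB.X (r, c) (hS _ h1).1 (r', c') (hS _ h2).1 h3 h4
  have hmem : ∀ a, (∀ r, Sum.inl r ∈ l → f r ≠ a) → (∀ d, g d ≠ a) →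
      a ∉ l.map (Sum.elim f g) := by
    intro a h1 h2 h3
    obtain ⟨x, hx, h4⟩ := List.mem_map.1 h3
    rcases x with r | d
    · exact h1 r hx h4
    · exact h2 d h4
  have hnd := H38Q.s3_nodup hB.injf hB.injg hB.ne hQ
  have hne : l.map (Sum.elim f g) ≠ [] := by
    intro h
    rw [List.map_eq_nil_iff] at h
    rw [h] at hh
    simp at hh
  have hed : edges (l.map (Sum.elim f g) ++ [f j]) =
      edges (l.map (Sum.elim f g)) ++ [(g c', f j)] := by
    rcases List.eq_nil_or_concat' l with h | ⟨L, b, h⟩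
    · rw [h] at hh
      simp at hh
    · have hb : b = Sum.inr c' := by
        rw [h] at hlast
        simpa using hlast
      rw [h, hb]
      simp only [List.map_append, List.map_cons, List.map_nil, Sum.elim_inr, List.append_assoc,
        List.cons_append, List.nil_append]
      rw [ce2_append]
      rfl
  have e1 : ∀ e ∈ edges (l.map (Sum.elim f g)), T.X (g c') (f j) e.1 e.2 = false := by
    refine e3_edge hC _ _ fun r d hrd hr hd => ?_
    rcases hlst d hd with h3 | h3
    · exact hz _ _ _ _ (Or.inr (Or.inl (by rw [h3])))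
    · have h4 := hB.X (r, d) (hS _ hrd).1 (j, c') (hcol c' hcl').2 (hrow r hr).2 h3
      rw [T.symm1, T.symm2]
      exact h4
  have e2 : ∀ e ∈ edges (l.map (Sum.elim f g)), T.X (f i) (g c) e.1 e.2 = false := by
    refine e3_edge hC _ _ fun r d hrd hr hd => ?_
    rcases hfirst d hd with h3 | h3
    · exact hz _ _ _ _ (Or.inr (Or.inr (Or.inr (by rw [h3]))))
    · exact hB.X (i, c) (hcol c hcl).1 (r, d) (hS _ hrd).1 (hrow r hr).1 h3
  have e3 : ∀ e ∈ edges (l.map (Sum.elim f g)), T.X (f i) (f j) e.1 e.2 = false :=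
    e3_edge hC _ _ fun r d hrd hr hd => (hS _ hrd).2.2.2.2.2
  have e4 : T.X (f i) (g c) (g c') (f j) = false := by
    rcases hlst c hcl with h3 | h3
    · exact hz _ _ _ _ (Or.inr (Or.inr (Or.inl (by rw [h3]))))
    · have h4 := hB.X (i, c) (hcol c hcl).1 (j, c') (hcol c' hcl').2 hij h3
      rw [T.symm2, T.symm1, T.symm2]
      exact h4
  have hP : T.Plane (edges (l.map (Sum.elim f g) ++ [f j])) := by
    rw [hed]
    refine ce5_plane_append T _ _ ?_ ?_ ?_
    · have he : edges (l.map (Sum.elim f g)) =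
          (l.zip l.tail).map (Prod.map (Sum.elim f g) (Sum.elim f g)) := by
        unfold edges
        rw [← List.map_tail, List.zip_map]
      intro e hem e' hem'
      rw [he, List.mem_map] at hem hem'
      obtain ⟨w, hw, rfl⟩ := hem
      obtain ⟨w', hw', rfl⟩ := hem'
      exact H38Q.s3_plane hX l hQ hC w hw w' hw'
    · intro e he e' he'
      rw [List.mem_singleton] at he he'
      rw [he, he']
      exact hz _ _ _ _ (Or.inl rfl)
    · intro e he e' he'
      rw [List.mem_singleton] at he'
      rw [he', T.symm2]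
      exact e1 e he
  have hfin := ce8_pole T (v := f i) (l := l.map (Sum.elim f g) ++ [f j]) (a := g c) (b := f j)
    ?_ ?_ hP ?_ (by simp) ?_ ?_
  · refine ce10_mono T ?_ hfin
    simp only [List.length_append, List.length_map, List.length_cons, List.length_nil]
    omega
  · rw [List.nodup_cons, List.nodup_append]
    refine ⟨?_, hnd, by simp, ?_⟩
    · rw [List.mem_append, List.mem_singleton]
      rintro (h3 | h3)
      · exact hmem (f i) (fun r hr h4 => (hrow r hr).1.ne (hB.injf h4).symm)
          (fun d h4 => hB.ne i d h4.symm) h3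
      · exact hij.ne (hB.injf h3)
    · intro a ha b hb hab
      rw [List.mem_singleton] at hb
      rw [hab, hb] at ha
      exact hmem (f j) (fun r hr h4 => (hrow r hr).2.ne (hB.injf h4))
        (fun d h4 => hB.ne j d h4.symm) ha
  · simp only [List.length_append, List.length_map, List.length_cons, List.length_nil]
    omega
  · rw [List.head?_append_of_ne_nil _ hne, List.head?_map, hh]
    rfl
  · intro e he
    rw [hed] at he
    rcases List.mem_append.1 he with h3 | h3
    · exact e2 e h3
    · rw [List.mem_singleton] at h3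
      rw [h3]
      exact e4
  · intro e he
    rw [hed] at he
    rcases List.mem_append.1 he with h3 | h3
    · exact e3 e h3
    · rw [List.mem_singleton] at h3
      rw [h3]
      exact hz _ _ _ _ (Or.inr (Or.inr (Or.inr rfl)))

end H38R
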