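import Mathlib
import Pool.Agent.Lib.H53P.CB

/-! # H38R, chunk E4 (M): a sparse ternary relation has a large free set (sampling with deletion) -/

namespace H38R

open Classical in
/-- (E4a, M) Sampling. PROOF. MODEL: `H53P.cb1_sample` (file H53P/CB.lean), with `H53P.cb1_card, cb1_pair, cb1_triple`. `m = 2 * r`, `F` = all functions `Fin m → V` with values in `N` (`Fintype.piFinset`), `|N| ^ m` of them; the non-injective ones: `2 * |B1| ≤ |N| ^ m` (`m (m - 1) ≤ |N|`, `cb1_pair`).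
The sum over `f ∈ F` of the number of triples `(i, j, l)` of different indices with `R (f i) (f j) (f l)` is, times `|N| ^ 3`, at most `m ^ 3 * q * |N| ^ m`, `q` = the number of bad triples (`cb1_triple`). If every injective `f ∈ F` had more than `r` such index triples, then
`(|N| ^ m / 2) * r * |N| ^ 3 < m ^ 3 * q * |N| ^ m = 8 * r ^ 3 * q * |N| ^ m`, so `|N| ^ 3 < 16 * r ^ 2 * q`, contradiction to `h2` (use `≤` and `<` carefully: more than `r` on at least half of the functions). -/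
theorem sample_few {V : Type*} [DecidableEq V] (N : Finset V) (R : V → V → V → Prop)
    [DecidablePred fun t : V × V × V => R t.1 t.2.1 t.2.2] (r : ℕ) (hr : 1 ≤ r)
    (h1 : (2 * r) ^ 2 ≤ N.card)
    (h2 : 16 * r ^ 2 * ((N ×ˢ N ×ˢ N).filter fun t : V × V × V => R t.1 t.2.1 t.2.2).card ≤
      N.card ^ 3) :
    ∃ f : Fin (2 * r) → V, Function.Injective f ∧ (∀ i, f i ∈ N) ∧
      ((Finset.univ : Finset (Fin (2 * r) × Fin (2 * r) × Fin (2 * r))).filter fun t =>
        t.1 ≠ t.2.1 ∧ t.1 ≠ t.2.2 ∧ t.2.1 ≠ t.2.2 ∧ R (f t.1) (f t.2.1) (f t.2.2)).card ≤ r := by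
  obtain ⟨m, hm⟩ : ∃ m : ℕ, m = 2 * r := ⟨_, rfl⟩
  obtain ⟨F, hF⟩ : ∃ F : Finset (Fin (2 * r) → V), F = Fintype.piFinset fun _ : Fin (2 * r) => N := ⟨_, rfl⟩
  obtain ⟨q, hq⟩ : ∃ q : ℕ,
      q = ((N ×ˢ N ×ˢ N).filter fun t : V × V × V => R t.1 t.2.1 t.2.2).card := ⟨_, rfl⟩
  have hN : 0 < N.card := lt_of_lt_of_le (by positivity) h1
  have hFc : F.card = N.card ^ (2 * r) := by rw [hF, H53P.cb1_card]
  obtain ⟨bad, hbad⟩ : ∃ bad : (Fin (2 * r) → V) → Finset (Fin (2 * r) × Fin (2 * r) × Fin (2 * r)),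
      bad = fun f => (Finset.univ : Finset (Fin (2 * r) × Fin (2 * r) × Fin (2 * r))).filter fun t =>
        t.1 ≠ t.2.1 ∧ t.1 ≠ t.2.2 ∧ t.2.1 ≠ t.2.2 ∧ R (f t.1) (f t.2.1) (f t.2.2) := ⟨_, rfl⟩
  -- the functions which are not injective
  obtain ⟨B1, hB1⟩ : ∃ B1 : Finset (Fin (2 * r) → V), B1 = Finset.univ.biUnion fun j : Fin (2 * r) =>
      (Finset.Iio j).biUnion fun i => F.filter fun f => f i = f j := ⟨_, rfl⟩
  have hc1 : 2 * B1.card < N.card ^ (2 * r) := by
    have h3 : N.card * B1.card ≤ ∑ j : Fin (2 * r), (j : ℕ) * N.card ^ (2 * r) := by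
      rw [hB1]
      refine (Nat.mul_le_mul_left _ Finset.card_biUnion_le).trans ?_
      rw [Finset.mul_sum]
      refine Finset.sum_le_sum fun j _ => ?_
      refine (Nat.mul_le_mul_left _ Finset.card_biUnion_le).trans ?_
      rw [Finset.mul_sum]
      refine (Finset.sum_le_sum (g := fun _ => N.card ^ (2 * r)) fun i hi => ?_).trans ?_
      · rw [hF]
        exact H53P.cb1_pair N (2 * r) (ne_of_lt (Finset.mem_Iio.1 hi))
      · rw [Finset.sum_const, smul_eq_mul, Fin.card_Iio]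
    have h4 : (∑ j : Fin (2 * r), (j : ℕ)) * 2 = (2 * r) * (2 * r - 1) := by
      rw [Fin.sum_univ_eq_sum_range (fun j => j), Finset.sum_range_id_mul_two]
    rw [← Finset.sum_mul] at h3
    have h5 : (2 * r) * (2 * r - 1) < (2 * r) ^ 2 := by
      rw [sq]
      exact Nat.mul_lt_mul_of_pos_left (by omega) (by omega)
    have h6 : 0 < N.card ^ (2 * r) := by positivity
    have h7 : N.card * (2 * B1.card) < N.card * N.card ^ (2 * r) := by
      calc N.card * (2 * B1.card) = 2 * (N.card * B1.card) := by ring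
        _ ≤ 2 * ((∑ j : Fin (2 * r), (j : ℕ)) * N.card ^ (2 * r)) := Nat.mul_le_mul_left _ h3
        _ = ((∑ j : Fin (2 * r), (j : ℕ)) * 2) * N.card ^ (2 * r) := by ring
        _ = (2 * r) * (2 * r - 1) * N.card ^ (2 * r) := by rw [h4]
        _ < (2 * r) ^ 2 * N.card ^ (2 * r) := Nat.mul_lt_mul_of_pos_right h5 h6
        _ ≤ N.card * N.card ^ (2 * r) := Nat.mul_le_mul_right _ h1
    exact Nat.lt_of_mul_lt_mul_left h7
  -- the sum of the numbers of bad triples
  have hsum : N.card ^ 3 * ∑ f ∈ F, (bad f).card ≤ (2 * r) ^ 3 * (q * N.card ^ (2 * r)) := by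
    have h3 : ∑ f ∈ F, (bad f).card = ∑ t ∈ ((Finset.univ : Finset (Fin (2 * r) × Fin (2 * r) × Fin (2 * r))).filter
        fun t => t.1 ≠ t.2.1 ∧ t.1 ≠ t.2.2 ∧ t.2.1 ≠ t.2.2), (F.filter
          fun f => (fun t : V × V × V => R t.1 t.2.1 t.2.2) (f t.1, f t.2.1, f t.2.2)).card := by
      simp only [hbad, Finset.card_filter, Finset.sum_filter]
      rw [Finset.sum_comm]
      refine Finset.sum_congr rfl fun t _ => ?_
      by_cases ht : t.1 ≠ t.2.1 ∧ t.1 ≠ t.2.2 ∧ t.2.1 ≠ t.2.2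
      · rw [if_pos ht]
        refine Finset.sum_congr rfl fun f _ => ?_
        by_cases hR : R (f t.1) (f t.2.1) (f t.2.2)
        · rw [if_pos ⟨ht.1, ht.2.1, ht.2.2, hR⟩, if_pos hR]
        · rw [if_neg (fun h => hR h.2.2.2), if_neg hR]
      · rw [if_neg ht]
        exact Finset.sum_eq_zero fun f _ => if_neg fun h => ht ⟨h.1, h.2.1, h.2.2.1⟩
    rw [h3, Finset.mul_sum]
    refine (Finset.sum_le_sum (g := fun _ => q * N.card ^ (2 * r)) fun t ht => ?_).trans ?_
    · rw [Finset.mem_filter] at ht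
      rw [hF, hq]
      exact H53P.cb1_triple N R (2 * r) ht.2.1 ht.2.2.1 ht.2.2.2
    · rw [Finset.sum_const, smul_eq_mul]
      refine Nat.mul_le_mul_right _ ((Finset.card_le_univ _).trans (le_of_eq ?_))
      rw [Fintype.card_prod, Fintype.card_prod, Fintype.card_fin]
      ring
  have hex : ∃ f ∈ F, f ∉ B1 ∧ (bad f).card ≤ r := by
    by_contra hc
    push Not at hc
    have h3 : (F \ B1).card * (r + 1) ≤ ∑ f ∈ F, (bad f).card := by
      calc (F \ B1).card * (r + 1) = ∑ _f ∈ F \ B1, (r + 1) := by rw [Finset.sum_const, smul_eq_mul]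
        _ ≤ ∑ f ∈ F \ B1, (bad f).card := Finset.sum_le_sum fun f hf => by
            rw [Finset.mem_sdiff] at hf
            exact hc f hf.1 hf.2
        _ ≤ ∑ f ∈ F, (bad f).card :=
            Finset.sum_le_sum_of_subset_of_nonneg Finset.sdiff_subset fun _ _ _ => Nat.zero_le _
    have h4 : F.card ≤ (F \ B1).card + B1.card := by
      have h5 := Finset.card_le_card (show F ⊆ (F \ B1) ∪ B1 by
        intro f hf
        rw [Finset.mem_union, Finset.mem_sdiff]
        by_cases h : f ∈ B1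
        · exact Or.inr h
        · exact Or.inl ⟨hf, h⟩)
      exact h5.trans (Finset.card_union_le _ _)
    have h5 : N.card ^ (2 * r) < 2 * (F \ B1).card := by omega
    have h6 : 0 < N.card ^ 3 := by positivity
    have h7 : 0 < N.card ^ (2 * r) := by positivity
    have h8 : N.card ^ (2 * r) * ((r + 1) * N.card ^ 3) < N.card ^ (2 * r) * (r * N.card ^ 3) := by
      calc N.card ^ (2 * r) * ((r + 1) * N.card ^ 3) < 2 * (F \ B1).card * ((r + 1) * N.card ^ 3) :=
            Nat.mul_lt_mul_of_pos_right h5 (by positivity)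
        _ = 2 * (N.card ^ 3 * ((F \ B1).card * (r + 1))) := by ring
        _ ≤ 2 * (N.card ^ 3 * ∑ f ∈ F, (bad f).card) := Nat.mul_le_mul_left _ (Nat.mul_le_mul_left _ h3)
        _ ≤ 2 * ((2 * r) ^ 3 * (q * N.card ^ (2 * r))) := Nat.mul_le_mul_left _ hsum
        _ = N.card ^ (2 * r) * (r * (16 * r ^ 2 * q)) := by ring
        _ ≤ N.card ^ (2 * r) * (r * N.card ^ 3) :=
            Nat.mul_le_mul_left _ (Nat.mul_le_mul_left _ (by rw [hq]; exact h2))
    have h9 := Nat.lt_of_mul_lt_mul_left h8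
    have h10 := Nat.lt_of_mul_lt_mul_right h9
    omega
  obtain ⟨f, hfF, hfB, hfb⟩ := hex
  have hlt : ∀ i j : Fin (2 * r), i < j → f i ≠ f j := fun i j hij he => hfB (by
    rw [hB1, Finset.mem_biUnion]
    refine ⟨j, Finset.mem_univ _, ?_⟩
    rw [Finset.mem_biUnion]
    exact ⟨i, Finset.mem_Iio.2 hij, Finset.mem_filter.2 ⟨hfF, he⟩⟩)
  have hinj : Function.Injective f := by
    intro i j he
    rcases lt_trichotomy i j with h | h | h
    · exact absurd he (hlt i j h)
    · exact h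
    · exact absurd he.symm (hlt j i h)
  refine ⟨f, hinj, ?_, ?_⟩
  · rw [hF, Fintype.mem_piFinset] at hfF
    exact hfF
  · rw [hbad] at hfb
    exact hfb

/-- (E4b, S/M) PROOF. `f` of `sample_few`, `B` = the set of bad index triples, `I` = the image of `B` under `t ↦ t.1` (at most `r` elements); the image under `f` of the complement of `I` has at least `r` elements, take a subset with exactly `r` (`Finset.exists_subset_card_eq`). -/
theorem sample_del {V : Type*} [DecidableEq V] (N : Finset V) (R : V → V → V → Prop)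
    [DecidablePred fun t : V × V × V => R t.1 t.2.1 t.2.2] (r : ℕ) (hr : 1 ≤ r)
    (h1 : (2 * r) ^ 2 ≤ N.card)
    (h2 : 16 * r ^ 2 * ((N ×ˢ N ×ˢ N).filter fun t : V × V × V => R t.1 t.2.1 t.2.2).card ≤
      N.card ^ 3) :
    ∃ W ⊆ N, W.card = r ∧ ∀ x ∈ W, ∀ y ∈ W, ∀ z ∈ W, x ≠ y → x ≠ z → y ≠ z → ¬ R x y z := by
  classical
  obtain ⟨f, hinj, hfN, hb⟩ := sample_few N R r hr h1 h2
  obtain ⟨B, hB⟩ : ∃ B : Finset (Fin (2 * r) × Fin (2 * r) × Fin (2 * r)),
      B = (Finset.univ : Finset (Fin (2 * r) × Fin (2 * r) × Fin (2 * r))).filter fun t =>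
        t.1 ≠ t.2.1 ∧ t.1 ≠ t.2.2 ∧ t.2.1 ≠ t.2.2 ∧ R (f t.1) (f t.2.1) (f t.2.2) := ⟨_, rfl⟩
  have hBr : B.card ≤ r := by
    refine le_trans (le_of_eq ?_) hb
    rw [hB]
  obtain ⟨I, hI⟩ : ∃ I : Finset (Fin (2 * r)), I = B.image Prod.fst := ⟨_, rfl⟩
  have hIr : I.card ≤ r := by
    rw [hI]
    exact Finset.card_image_le.trans hBr
  have hc : r ≤ ((Iᶜ).image f).card := by
    rw [Finset.card_image_of_injective _ hinj, Finset.card_compl, Fintype.card_fin]
    omega
  obtain ⟨W, hW, hWr⟩ := Finset.exists_subset_card_eq hc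
  refine ⟨W, ?_, hWr, ?_⟩
  · intro x hx
    obtain ⟨i, -, rfl⟩ := Finset.mem_image.1 (hW hx)
    exact hfN i
  · intro x hx y hy z hz hxy hxz hyz hR
    obtain ⟨i, hi, rfl⟩ := Finset.mem_image.1 (hW hx)
    obtain ⟨j, -, rfl⟩ := Finset.mem_image.1 (hW hy)
    obtain ⟨l, -, rfl⟩ := Finset.mem_image.1 (hW hz)
    rw [Finset.mem_compl] at hi
    apply hi
    rw [hI, Finset.mem_image]
    refine ⟨(i, j, l), ?_, rfl⟩
    rw [hB, Finset.mem_filter]
    exact ⟨Finset.mem_univ _, fun h => hxy (congrArg f h), fun h => hxz (congrArg f h),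
      fun h => hyz (congrArg f h), hR⟩

end H38R
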