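import Mathlib

/-! # H38R, chunk E5 (M, ONLY MATHLIB): a column with few bad triples -/

namespace H38R

/-- the rows which are adjacent to the column `b` -/
def Nb {K : ℕ} (H : Finset (Fin K × Fin K)) (b : Fin K) : Finset (Fin K) :=
  Finset.univ.filter fun i => (i, b) ∈ H

open Classical in
/-- e5aux: the bad triples of one column as a triple sum -/
theorem e5_bad_sum {K : ℕ} (H : Finset (Fin K × Fin K)) (Bad : Fin K → Fin K → Fin K → Fin K → Prop)
    (b : Fin K) :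
    ((Nb H b ×ˢ Nb H b ×ˢ Nb H b).filter fun s =>
        s.1 < s.2.1 ∧ s.2.1 < s.2.2 ∧ Bad s.1 s.2.1 s.2.2 b).card =
      ∑ i, ∑ l, ∑ j, if ((i, b) ∈ H ∧ (l, b) ∈ H ∧ (j, b) ∈ H ∧ i < l ∧ l < j ∧ Bad i l j b)
        then 1 else 0 := by
  have h1 : ((Nb H b ×ˢ Nb H b ×ˢ Nb H b).filter fun s =>
        s.1 < s.2.1 ∧ s.2.1 < s.2.2 ∧ Bad s.1 s.2.1 s.2.2 b) =
      Finset.univ.filter (fun s : Fin K × Fin K × Fin K =>
        ((s.1, b) ∈ H ∧ (s.2.1, b) ∈ H ∧ (s.2.2, b) ∈ H ∧ s.1 < s.2.1 ∧ s.2.1 < s.2.2 ∧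
          Bad s.1 s.2.1 s.2.2 b)) := by
    ext s
    simp only [Nb, Finset.mem_filter, Finset.mem_product, Finset.mem_univ, true_and]
    tauto
  rw [h1, Finset.card_filter, Fintype.sum_prod_type]
  refine Finset.sum_congr rfl fun i _ => ?_
  rw [Fintype.sum_prod_type]

open Classical in
/-- e5aux: the right hand side of hS as a double sum -/
theorem e5_pair_sum {K : ℕ} (H : Finset (Fin K × Fin K)) (Bad : Fin K → Fin K → Fin K → Fin K → Prop)
    (i j : Fin K) :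
    (H.filter fun e => i < e.1 ∧ e.1 < j ∧ (i, e.2) ∈ H ∧ (j, e.2) ∈ H ∧
      Bad i e.1 j e.2).card =
      ∑ l, ∑ b, if ((i, b) ∈ H ∧ (l, b) ∈ H ∧ (j, b) ∈ H ∧ i < l ∧ l < j ∧ Bad i l j b)
        then 1 else 0 := by
  have h1 : (H.filter fun e => i < e.1 ∧ e.1 < j ∧ (i, e.2) ∈ H ∧ (j, e.2) ∈ H ∧
      Bad i e.1 j e.2) =
      Finset.univ.filter (fun e : Fin K × Fin K =>
        ((i, e.2) ∈ H ∧ (e.1, e.2) ∈ H ∧ (j, e.2) ∈ H ∧ i < e.1 ∧ e.1 < j ∧
          Bad i e.1 j e.2)) := by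
    ext s
    simp only [Finset.mem_filter, Finset.mem_univ, true_and, Prod.mk.eta]
    tauto
  rw [h1, Finset.card_filter, Fintype.sum_prod_type]

open Classical in
/-- e5aux: the sum of all bad triples -/
theorem e5_total {K k : ℕ} (H : Finset (Fin K × Fin K)) (Bad : Fin K → Fin K → Fin K → Fin K → Prop)
    (hS : ∀ i j, i < j → (H.filter fun e => i < e.1 ∧ e.1 < j ∧ (i, e.2) ∈ H ∧ (j, e.2) ∈ H ∧
      Bad i e.1 j e.2).card ≤ k * K) :
    ∑ b, ((Nb H b ×ˢ Nb H b ×ˢ Nb H b).filter fun s =>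
        s.1 < s.2.1 ∧ s.2.1 < s.2.2 ∧ Bad s.1 s.2.1 s.2.2 b).card ≤ K * K * (k * K) := by
  have h1 : ∑ b, ((Nb H b ×ˢ Nb H b ×ˢ Nb H b).filter fun s =>
        s.1 < s.2.1 ∧ s.2.1 < s.2.2 ∧ Bad s.1 s.2.1 s.2.2 b).card =
      ∑ i, ∑ j, ∑ l, ∑ b, (if ((i, b) ∈ H ∧ (l, b) ∈ H ∧ (j, b) ∈ H ∧ i < l ∧ l < j ∧ Bad i l j b)
        then 1 else 0) := by
    simp only [e5_bad_sum]
    rw [Finset.sum_comm]
    refine Finset.sum_congr rfl fun i _ => ?_
    rw [Finset.sum_comm]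
    rw [Finset.sum_comm (s := (Finset.univ : Finset (Fin K))) (t := Finset.univ) (f := fun j l =>
      ∑ b, (if ((i, b) ∈ H ∧ (l, b) ∈ H ∧ (j, b) ∈ H ∧ i < l ∧ l < j ∧ Bad i l j b)
        then 1 else 0))]
    refine Finset.sum_congr rfl fun l _ => ?_
    rw [Finset.sum_comm]
  rw [h1]
  have h2 : ∀ i j : Fin K, ∑ l, ∑ b, (if ((i, b) ∈ H ∧ (l, b) ∈ H ∧ (j, b) ∈ H ∧ i < l ∧ l < j ∧
      Bad i l j b) then 1 else 0) ≤ k * K := by
    intro i j
    by_cases hij : i < j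
    · rw [← e5_pair_sum]
      exact hS i j hij
    · have : ∑ l, ∑ b, (if ((i, b) ∈ H ∧ (l, b) ∈ H ∧ (j, b) ∈ H ∧ i < l ∧ l < j ∧
        Bad i l j b) then 1 else 0) = 0 := by
        refine Finset.sum_eq_zero fun l _ => Finset.sum_eq_zero fun b _ => ?_
        rw [if_neg]
        rintro ⟨-, -, -, h4, h5, -⟩
        exact hij (h4.trans h5)
      rw [this]
      exact Nat.zero_le _
  calc ∑ i, ∑ j, ∑ l, ∑ b, (if ((i, b) ∈ H ∧ (l, b) ∈ H ∧ (j, b) ∈ H ∧ i < l ∧ l < j ∧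
        Bad i l j b) then 1 else 0) ≤ ∑ i : Fin K, ∑ j : Fin K, k * K :=
        Finset.sum_le_sum fun i _ => Finset.sum_le_sum fun j _ => h2 i j
    _ = K * K * (k * K) := by
        simp only [Finset.sum_const, Finset.card_univ, Fintype.card_fin, smul_eq_mul]
        ring

open Classical in
/-- e5aux: the degrees of the columns sum to the size of H -/
theorem e5_deg_sum {K : ℕ} (H : Finset (Fin K × Fin K)) : ∑ b, (Nb H b).card = H.card := by
  have h1 : ∀ b : Fin K, (Nb H b).card = ∑ i : Fin K, if (i, b) ∈ H then 1 else 0 := by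
    intro b
    rw [Nb, Finset.card_filter]
  simp only [h1]
  rw [Finset.sum_comm]
  have h2 : H = Finset.univ.filter (fun e : Fin K × Fin K => (e.1, e.2) ∈ H) := by
    ext e
    simp
  conv_rhs => rw [h2]
  rw [Finset.card_filter, Fintype.sum_prod_type]

/-- e5aux: many columns of large degree -/
theorem e5_many {K t : ℕ} (hK : 1 ≤ K) (H : Finset (Fin K × Fin K)) (hH : K * (2 * t) ≤ H.card) :
    t ≤ (Finset.univ.filter fun b : Fin K => t ≤ (Nb H b).card).card := by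
  classical
  have h1 := e5_deg_sum H
  have h2 : ∑ b, (Nb H b).card ≤
      ∑ b : Fin K, ((if t ≤ (Nb H b).card then K else 0) + t) := by
    refine Finset.sum_le_sum fun b _ => ?_
    by_cases h : t ≤ (Nb H b).card
    · rw [if_pos h]
      have : (Nb H b).card ≤ K := by
        have := Finset.card_le_univ (Nb H b)
        simpa using this
      omega
    · rw [if_neg h]
      omega
  have h3 : ∑ b : Fin K, ((if t ≤ (Nb H b).card then K else 0) + t) =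
      (Finset.univ.filter fun b : Fin K => t ≤ (Nb H b).card).card * K + K * t := by
    rw [Finset.sum_add_distrib, ← Finset.sum_filter]
    simp only [Finset.sum_const, Finset.card_univ, Fintype.card_fin, smul_eq_mul]
  have h4 : K * (2 * t) ≤ (Finset.univ.filter fun b : Fin K => t ≤ (Nb H b).card).card * K + K * t := by
    calc K * (2 * t) ≤ H.card := hH
      _ = ∑ b, (Nb H b).card := h1.symm
      _ ≤ _ := h2
      _ = _ := h3
  have h5 : t * K ≤ (Finset.univ.filter fun b : Fin K => t ≤ (Nb H b).card).card * K := by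
    nlinarith
  exact Nat.le_of_mul_le_mul_right h5 hK

open Classical in
/-- (E5a, M) PROOF. `K = 20 * D * t`. The sum over `b` of `(Nb H b).card` is `H.card ≥ K * (2 * t)`; `B1` = the columns with `t ≤ (Nb H b).card`: `K * (2 * t) ≤ B1.card * K + K * t`, so `t ≤ B1.card` (`K ≥ 1`). `bad b` = the number on the right of the claim (triples `(i, l, j)` of `Nb H b`, `i < l < j`, `Bad i l j b`).
The sum over `b` of `bad b` is the number of `(i, j, l, b)`, that is the sum over the pairs `i < j` of the cardinalities in `hS`, so it is `≤ K * K * (k * K)`. If the claim fails for every `b ∈ B1`, then (the first part `(2 * r) ^ 2 ≤ t ≤ (Nb H b).card` holds by `ht`)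
`t ^ 3 ≤ (Nb H b).card ^ 3 < 16 * r ^ 2 * bad b`, so `t ^ 4 ≤ B1.card * t ^ 3 < 16 * r ^ 2 * (k * K ^ 3) = 16 * r ^ 2 * k * 8000 * D ^ 3 * t ^ 3 ≤ t ^ 4` (`ht`), contradiction (`B1` is nonempty as `t ≥ 1`). -/
theorem pick_column (D t r k : ℕ) (hD : 1 ≤ D) (hr : 1 ≤ r) (hk : 1 ≤ k)
    (ht : 128000 * D ^ 3 * r ^ 2 * k ≤ t)
    (H : Finset (Fin (20 * D * t) × Fin (20 * D * t))) (hH : 20 * D * t * (2 * t) ≤ H.card)
    (Bad : Fin (20 * D * t) → Fin (20 * D * t) → Fin (20 * D * t) → Fin (20 * D * t) → Prop)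
    (hS : ∀ i j, i < j → (H.filter fun e => i < e.1 ∧ e.1 < j ∧ (i, e.2) ∈ H ∧ (j, e.2) ∈ H ∧
      Bad i e.1 j e.2).card ≤ k * (20 * D * t)) :
    ∃ b, (2 * r) ^ 2 ≤ (Nb H b).card ∧
      16 * r ^ 2 * ((Nb H b ×ˢ Nb H b ×ˢ Nb H b).filter fun s =>
        s.1 < s.2.1 ∧ s.2.1 < s.2.2 ∧ Bad s.1 s.2.1 s.2.2 b).card ≤ (Nb H b).card ^ 3 := by
  have hD3 : 1 ≤ D ^ 3 := Nat.one_le_pow _ _ hD
  have hr2 : 1 ≤ r ^ 2 := Nat.one_le_pow _ _ hr
  have hbig : 128000 * r ^ 2 ≤ t := by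
    refine le_trans ?_ ht
    calc 128000 * r ^ 2 = 128000 * 1 * r ^ 2 * 1 := by ring
      _ ≤ 128000 * D ^ 3 * r ^ 2 * k :=
        Nat.mul_le_mul (Nat.mul_le_mul (Nat.mul_le_mul le_rfl hD3) le_rfl) hk
  have ht1 : 1 ≤ t := by omega
  have hK : 1 ≤ 20 * D * t := Nat.succ_le_of_lt (by positivity)
  have hmany := e5_many hK H hH
  have htot := e5_total (k := k) H Bad hS
  by_contra hcon
  have hcon' : ∀ b, (2 * r) ^ 2 ≤ (Nb H b).card → (Nb H b).card ^ 3 <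
      16 * r ^ 2 * ((Nb H b ×ˢ Nb H b ×ˢ Nb H b).filter fun s =>
        s.1 < s.2.1 ∧ s.2.1 < s.2.2 ∧ Bad s.1 s.2.1 s.2.2 b).card := by
    intro b hb
    by_contra h
    exact hcon ⟨b, hb, not_lt.mp h⟩
  have hne : (Finset.univ.filter fun b : Fin (20 * D * t) => t ≤ (Nb H b).card).Nonempty := by
    rw [← Finset.card_pos]
    omega
  have hlt : ∑ _b ∈ (Finset.univ.filter fun b : Fin (20 * D * t) => t ≤ (Nb H b).card), t ^ 3 <
      ∑ b ∈ (Finset.univ.filter fun b : Fin (20 * D * t) => t ≤ (Nb H b).card),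
      16 * r ^ 2 * ((Nb H b ×ˢ Nb H b ×ˢ Nb H b).filter fun s =>
        s.1 < s.2.1 ∧ s.2.1 < s.2.2 ∧ Bad s.1 s.2.1 s.2.2 b).card := by
    refine Finset.sum_lt_sum_of_nonempty hne fun b hb => ?_
    have hb' : t ≤ (Nb H b).card := (Finset.mem_filter.mp hb).2
    refine lt_of_le_of_lt (Nat.pow_le_pow_left hb' 3) (hcon' b ?_)
    calc (2 * r) ^ 2 = 4 * r ^ 2 := by ring
      _ ≤ t := by omega
      _ ≤ _ := hb'
  rw [Finset.sum_const, smul_eq_mul] at hlt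
  have hle : ∑ b ∈ (Finset.univ.filter fun b : Fin (20 * D * t) => t ≤ (Nb H b).card),
      16 * r ^ 2 * ((Nb H b ×ˢ Nb H b ×ˢ Nb H b).filter fun s =>
        s.1 < s.2.1 ∧ s.2.1 < s.2.2 ∧ Bad s.1 s.2.1 s.2.2 b).card ≤
      16 * r ^ 2 * ∑ b, ((Nb H b ×ˢ Nb H b ×ˢ Nb H b).filter fun s =>
        s.1 < s.2.1 ∧ s.2.1 < s.2.2 ∧ Bad s.1 s.2.1 s.2.2 b).card := by
    rw [← Finset.mul_sum]
    exact Nat.mul_le_mul le_rfl (Finset.sum_le_sum_of_subset (Finset.filter_subset _ _))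
  have h1 : t * t ^ 3 ≤
      (Finset.univ.filter fun b : Fin (20 * D * t) => t ≤ (Nb H b).card).card * t ^ 3 :=
    Nat.mul_le_mul hmany le_rfl
  have h2 : 16 * r ^ 2 * ∑ b, ((Nb H b ×ˢ Nb H b ×ˢ Nb H b).filter fun s =>
        s.1 < s.2.1 ∧ s.2.1 < s.2.2 ∧ Bad s.1 s.2.1 s.2.2 b).card ≤
      16 * r ^ 2 * (20 * D * t * (20 * D * t) * (k * (20 * D * t))) :=
    Nat.mul_le_mul le_rfl htot
  have h3 : 16 * r ^ 2 * (20 * D * t * (20 * D * t) * (k * (20 * D * t))) =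
      (128000 * D ^ 3 * r ^ 2 * k) * t ^ 3 := by ring
  have h4 : (128000 * D ^ 3 * r ^ 2 * k) * t ^ 3 ≤ t * t ^ 3 := Nat.mul_le_mul ht le_rfl
  have h5 := h1.trans_lt (hlt.trans_le (hle.trans (h2.trans (h3.le.trans h4))))
  exact lt_irrefl _ h5

end H38R
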