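import Pool.Agent.Lib.H38R.E2
import Pool.Agent.Lib.H38R.E3
import Pool.Agent.Lib.H38R.E4
import Pool.Agent.Lib.H38R.E5

/-! # H38R, chunk E6 (M): a dense box contains a long plane cycle -/

open H53P

namespace H38R

/-- (E6, M) PROOF. By contradiction, let `T` have no plane cycle with `k` vertices. `Bad i l j b : T.X (f i) (f j) (f l) (g b) = false`. For `i < j` let `S` be the filtered set in `pick_column`: `stair_cycle` (contraposition) gives `S.card ≤ k * K`. `pick_column` with `r = k`: `b`.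
`sample_del` for `N = Nb H b`, `R x y z : x < y ∧ y < z ∧ Bad x y z b`, `r = k`: `W ⊆ Nb H b` with `k` elements and without bad triple. `p = f ∘ W.orderEmbOfFin _ : Fin k → V`, `fan_cycle` with the vertex `g b` (`hM`: for `i < j < l` the triple is not bad, so `T.X (p i) (p l) (p j) (g b) = true`, and `T.X (p i) (p l) (g b) (p j)` is the same
by the symmetries). `HasCycle (k + 1)` implies `HasCycle k`. -/
theorem box_cycle {V : Type*} {T : Table V} (D t k : ℕ) (hD : 1 ≤ D) (hk : 3 ≤ k)
    (ht : 128000 * D ^ 3 * k ^ 3 ≤ t) {f g : Fin (20 * D * t) → V}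
    {H : Finset (Fin (20 * D * t) × Fin (20 * D * t))} (hB : Box T (20 * D * t) f g H)
    (hH : 20 * D * t * (2 * t) ≤ H.card) : T.HasCycle k := by
  classical
  by_contra hno
  obtain ⟨Bad, hBad⟩ : ∃ Bad : Fin (20 * D * t) → Fin (20 * D * t) → Fin (20 * D * t) →
      Fin (20 * D * t) → Prop, ∀ i l j b, Bad i l j b ↔ T.X (f i) (f j) (f l) (g b) = false :=
    ⟨_, fun _ _ _ _ => Iff.rfl⟩
  obtain ⟨b, hb1, hb2⟩ := pick_column D t k k hD (by omega) (by omega)
    (by calc 128000 * D ^ 3 * k ^ 2 * k = 128000 * D ^ 3 * k ^ 3 := by ring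
        _ ≤ t := ht) H hH Bad (by
      intro i j hij
      by_contra hc
      push Not at hc
      exact hno (stair_cycle hB hij _ (fun e he => by
        have h := Finset.mem_filter.1 he
        exact ⟨h.1, h.2.1, h.2.2.1, h.2.2.2.1, h.2.2.2.2.1, (hBad _ _ _ _).1 h.2.2.2.2.2⟩)
        k hk hc))
  obtain ⟨W, hWN, hWk, hW⟩ := sample_del (Nb H b)
    (fun x y z => x < y ∧ y < z ∧ Bad x y z b) k (by omega) hb1 hb2
  have hwW : ∀ i : Fin k, W.orderEmbOfFin hWk i ∈ W := fun i => Finset.orderEmbOfFin_mem W hWk i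
  have hcyc := fan_cycle T (s := k) (by omega) (g b) (fun i => f (W.orderEmbOfFin hWk i))
    (fun i j hij => (W.orderEmbOfFin hWk).injective (hB.injf hij)) (fun i => hB.ne _ _) (by
      intro i j l hij hjl
      have h1 : W.orderEmbOfFin hWk i < W.orderEmbOfFin hWk j :=
        (W.orderEmbOfFin hWk).strictMono hij
      have h2 : W.orderEmbOfFin hWk j < W.orderEmbOfFin hWk l :=
        (W.orderEmbOfFin hWk).strictMono hjl
      have h3 := hW _ (hwW i) _ (hwW j) _ (hwW l) h1.ne (h1.trans h2).ne h2.ne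
      have h4 : T.X (f (W.orderEmbOfFin hWk i)) (f (W.orderEmbOfFin hWk l))
          (f (W.orderEmbOfFin hWk j)) (g b) = true := by
        by_contra h5
        exact h3 ⟨h1, h2, (hBad _ _ _ _).2 (by simpa using h5)⟩
      change T.X (f (W.orderEmbOfFin hWk i)) (f (W.orderEmbOfFin hWk l)) (g b)
          (f (W.orderEmbOfFin hWk j)) = true
      rw [T.symm2, T.symm1, T.symm2]
      exact h4)
  obtain ⟨v, l, h1, h2, h3, h4⟩ := hcyc
  exact hno ⟨v, l, h1, by omega, h3, h4⟩

end H38R
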