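import Pool.Agent.Lib.H38R.B1
import Pool.Agent.Lib.H38R.E6
import Pool.Agent.Lib.H53P.FIN1

/-! # H38R, chunk E7 (M): the theorem -/

open H53P SimpleDraw

namespace H38R

/-- (E7a, S) PROOF. `box_table` with `t = 128000 * D ^ 3 * k ^ 3` for `k`, `box_cycle`. -/
theorem cycle_table : ∃ C : ℕ, 1 ≤ C ∧ ∀ (V : Type) [Fintype V] [DecidableEq V] (T : Table V)
    (k : ℕ), 3 ≤ k → C * k ^ 9 ≤ Fintype.card V → T.HasCycle k := by
  obtain ⟨C, D, hC, hD, h⟩ := box_table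
  refine ⟨C * (128000 * D ^ 3) ^ 3, Nat.mul_pos hC (pow_pos (Nat.mul_pos (by norm_num) (pow_pos hD 3)) 3), ?_⟩
  intro V _ _ T k hk hn
  have ht : 1 ≤ 128000 * D ^ 3 * k ^ 3 := Nat.mul_pos (Nat.mul_pos (by norm_num) (pow_pos hD 3)) (pow_pos (by omega) 3)
  obtain ⟨f, g, H, hB, hH⟩ := h V T (128000 * D ^ 3 * k ^ 3) ht (le_trans (le_of_eq (by ring)) hn)
  exact box_cycle D (128000 * D ^ 3 * k ^ 3) k hD hk le_rfl hB hH

/-- (E7b, S/M) a plane triangle. PROOF. `(table D).HasCycle 3`: three different vertices `a, b, c` (`n ≥ 3`), any two edges of the triangle have a common vertex, so they do not cross (`T.ne`); `fin1_cycle` gives `m ≥ 3`, or directly. -/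
theorem triangle {n : ℕ} (hn : 3 ≤ n) (D : SimpleDrawing n) : (table D).HasCycle 3 := by
  refine ⟨⟨0, by omega⟩, [⟨1, by omega⟩, ⟨2, by omega⟩], ?_, ?_, ?_, ?_⟩
  · simp [Fin.ext_iff]
  · simp
  · simp
  · intro e he f hf
    simp only [edges, List.cons_append, List.nil_append, List.tail_cons, List.zip_cons_cons, List.zip_nil_right, List.mem_cons, List.not_mem_nil, or_false] at he hf
    by_contra h
    rw [Bool.not_eq_false] at h
    obtain ⟨h1, h2, h3, h4, h5, h6⟩ := (table D).ne _ _ _ _ h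
    rcases he with rfl | rfl | rfl <;> rcases hf with rfl | rfl | rfl <;> simp_all

/-- (E7c, M) PROOF. `C` of `cycle_table`, `c = 1 / (2 * C)`. `t = (n / C) ^ (1 / 9)` (real), `k = ⌊t⌋₊`. If `3 ≤ k`: `k ^ 9 ≤ t ^ 9 = n / C`, so `C * k ^ 9 ≤ n` and `cycle_table`, `fin1_cycle` give `m ≥ k ≥ t / 2`, and `c * n ^ (1/9) ≤ t / 2` (`C ^ (1/9) ≤ C`). If `k ≤ 2`: `t < 3`, `c * n ^ (1/9) ≤ t / 2 ≤ 3 ≤ m`
for the `m` of `triangle` and `fin1_cycle`. -/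
theorem final : ∃ c : ℝ, 0 < c ∧ ∀ n : ℕ, 3 ≤ n → ∀ D : SimpleDrawing n, ∃ m : ℕ, 3 ≤ m ∧
    c * (n : ℝ) ^ (1 / 9 : ℝ) ≤ m ∧
      ∃ f : Fin m ↪ Fin n, D.Plane ((SimpleGraph.cycleGraph m).map f) := by
  obtain ⟨C, hC, h⟩ := cycle_table
  have hC0 : (1 : ℝ) ≤ (C : ℝ) := by exact_mod_cast hC
  have hCp : (0 : ℝ) < (C : ℝ) := lt_of_lt_of_le one_pos hC0
  refine ⟨1 / (2 * C), by positivity, ?_⟩
  intro n hn D
  obtain ⟨x, hx⟩ : ∃ x : ℝ, x = (n : ℝ) / C := ⟨_, rfl⟩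
  have hx0 : 0 ≤ x := by
    rw [hx]
    positivity
  obtain ⟨t, ht⟩ : ∃ t : ℝ, t = x ^ (1 / 9 : ℝ) := ⟨_, rfl⟩
  have ht0 : 0 ≤ t := by
    rw [ht]
    exact Real.rpow_nonneg hx0 _
  have ht9 : t ^ 9 = x := by
    rw [ht, ← Real.rpow_natCast, ← Real.rpow_mul hx0]
    norm_num
  have hnC : (n : ℝ) = C * x := by
    rw [hx]
    field_simp
  have hct : 1 / (2 * (C : ℝ)) * (n : ℝ) ^ (1 / 9 : ℝ) ≤ t / 2 := by
    rw [hnC, Real.mul_rpow hCp.le hx0, ← ht]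
    have h1 : (C : ℝ) ^ (1 / 9 : ℝ) ≤ C := by
      calc (C : ℝ) ^ (1 / 9 : ℝ) ≤ (C : ℝ) ^ (1 : ℝ) := Real.rpow_le_rpow_of_exponent_le hC0 (by norm_num)
        _ = C := Real.rpow_one _
    calc 1 / (2 * (C : ℝ)) * ((C : ℝ) ^ (1 / 9 : ℝ) * t) ≤ 1 / (2 * (C : ℝ)) * (C * t) := by
          refine mul_le_mul_of_nonneg_left (mul_le_mul_of_nonneg_right h1 ht0) (by positivity)
      _ = t / 2 := by field_simp
  obtain ⟨k, hk⟩ : ∃ k : ℕ, k = ⌊t⌋₊ := ⟨_, rfl⟩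
  have hk1 : (k : ℝ) ≤ t := by
    rw [hk]
    exact Nat.floor_le ht0
  have hk2 : t < k + 1 := by
    rw [hk]
    exact Nat.lt_floor_add_one t
  by_cases h3 : 3 ≤ k
  · have h4 : C * k ^ 9 ≤ n := by
      have h5 : (C : ℝ) * (k : ℝ) ^ 9 ≤ n := by
        rw [hnC, ← ht9]
        exact mul_le_mul_of_nonneg_left (pow_le_pow_left₀ (Nat.cast_nonneg k) hk1 9) hCp.le
      exact_mod_cast h5
    obtain ⟨m, hm, hm3, hf⟩ := fin1_cycle D (h (Fin n) (table D) k h3 (by rw [Fintype.card_fin]; exact h4))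
    refine ⟨m, hm3, hct.trans ?_, hf⟩
    have h6 : (k : ℝ) ≤ m := by exact_mod_cast hm
    have h7 : (3 : ℝ) ≤ k := by exact_mod_cast h3
    linarith
  · obtain ⟨m, hm, hm3, hf⟩ := fin1_cycle D (triangle hn D)
    refine ⟨m, hm3, hct.trans ?_, hf⟩
    have h6 : (3 : ℝ) ≤ m := by exact_mod_cast hm
    have h7 : (k : ℝ) ≤ 2 := by exact_mod_cast (by omega : k ≤ 2)
    linarith

end H38R
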